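import Mathlib

/-!
# Ramsey, diameter-Ramsey and almost diameter-Ramsey sets: definitions
-/

set_option autoImplicit false

namespace Pool.Agent.Helper1.DROwn

open scoped ENNReal

/-- The Euclidean space `ℝ^n`. -/
abbrev E (n : ℕ) : Type := EuclideanSpace ℝ (Fin n)

/-- `R → (P)_r`: every colouring of the points of `R` with `r` colours has a monochromatic subset `Q`
of `R` congruent to `P`. -/
def Arrow {n d : ℕ} (R : Set (E n)) (P : Set (E d)) (r : ℕ) : Prop :=
  ∀ c : R → Fin r, ∃ Q : Set R, Nonempty (P ≃ᵢ Q) ∧ ∃ i, ∀ x ∈ Q, c x = i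

/-- `P` is Ramsey: for every `r ≥ 2` there is a dimension `n` such that every colouring of `ℝ^n` with
`r` colours has a monochromatic subset congruent to `P`. -/
def Ramsey {d : ℕ} (P : Set (E d)) : Prop :=
  ∀ r : ℕ, 2 ≤ r → ∃ n : ℕ, ∀ c : E n → Fin r, ∃ Q : Set (E n), Nonempty (P ≃ᵢ Q) ∧
    ∃ i, ∀ x ∈ Q, c x = i

/-- `P` is diameter-Ramsey: for every `r ≥ 2` there is a finite set `R` in some Euclidean space with
the same diameter and `R → (P)_r`. -/
def DiameterRamsey {d : ℕ} (P : Set (E d)) : Prop :=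
  ∀ r : ℕ, 2 ≤ r → ∃ (n : ℕ) (R : Set (E n)), R.Finite ∧ Metric.ediam R = Metric.ediam P ∧
    Arrow R P r

/-- `d_P(r)`: the infimum of the diameters of the sets `R` (finite or infinite, in a Euclidean space of
any dimension) with `R → (P)_r`. -/
noncomputable def minDiam {d : ℕ} (P : Set (E d)) (r : ℕ) : ℝ≥0∞ :=
  ⨅ (n : ℕ) (R : Set (E n)) (_ : Arrow R P r), Metric.ediam R

/-- `P` is almost diameter-Ramsey: it is Ramsey and `d_P(r) = diam(P)` for every `r ≥ 1`. -/
def AlmostDiameterRamsey {d : ℕ} (P : Set (E d)) : Prop :=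
  Ramsey P ∧ ∀ r : ℕ, 1 ≤ r → minDiam P r = Metric.ediam P

end Pool.Agent.Helper1.DROwn
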