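import Pool.Agent.Helper1.DROwn.Defs
import Pool.Agent.Helper1.AlmostDR
import Pool.Agent.Helper61.Glue

/-!
# An almost diameter-Ramsey set which is not diameter-Ramsey: proof
-/

set_option autoImplicit false

namespace Pool.Agent.Helper1.DROwn

open Pool.Agent.Helper1 Pool.Agent.Helper61.NotDR
open scoped ENNReal

theorem isoRange {α β ι : Type*} [MetricSpace α] [MetricSpace β] (f : ι → α) (g : ι → β)
    (h : ∀ p q, dist (f p) (f q) = dist (g p) (g q)) :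
    Nonempty (Set.range f ≃ᵢ Set.range g) := by
  let e : Set.range f → Set.range g := fun x => ⟨g x.2.choose, ⟨_, rfl⟩⟩
  have he : Isometry e := Isometry.of_dist_eq fun x y => by
    show dist (g x.2.choose) (g y.2.choose) = dist (x : α) (y : α)
    rw [← h, x.2.choose_spec, y.2.choose_spec]
  have hs : Function.Surjective e := by
    rintro ⟨y, q, rfl⟩
    refine ⟨⟨f q, ⟨q, rfl⟩⟩, Subtype.ext ?_⟩
    have h1 : f (Set.mem_range_self (f := f) q).choose = f q :=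
      (Set.mem_range_self (f := f) q).choose_spec
    show g _ = g q
    rw [← dist_eq_zero, ← h, dist_eq_zero]
    exact h1
  exact ⟨⟨Equiv.ofBijective e ⟨he.injective, hs⟩, he⟩⟩

theorem PP_eq : (PP : Set (E 16)) = Set.range pt := by
  ext x
  rw [Finset.mem_coe, mem_PP]
  rfl

theorem dist_of_copy {n : ℕ} {y : I → E n} (hy : IsCopy y) (p q : I) :
    dist (pt p) (pt q) = dist (y p) (y q) := by
  have h1 := hy p q
  rw [← dist_pt] at h1
  exact ((pow_left_inj₀ dist_nonneg dist_nonneg two_ne_zero).1 h1).symm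

theorem card_PP : PP.card = 33 := by
  classical
  unfold PP
  rw [Finset.card_image_of_injective _ pt_inj]
  simp [I]

/-- A colouring without monochromatic copies, for arbitrary sets. -/
theorem not_dr_inf : ∃ m : ℕ, 1 ≤ m ∧ ∀ (n : ℕ) (R : Set (E n)),
    (∀ x ∈ R, ∀ y ∈ R, dist x y ^ 2 ≤ 32) → ∃ c : E n → Fin m,
      ∀ y : I → E n, (∀ p, y p ∈ R) → IsCopy y → ¬ ∃ i, ∀ p, c (y p) = i := by
  classical
  obtain ⟨m, hm, hnot⟩ := not_dr
  refine ⟨m, hm, fun n R hR => ?_⟩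
  let J : Type := {y : I → E n // (∀ p, y p ∈ R) ∧ IsCopy y}
  let t : J → Set (E n → Fin m) := fun y => {c | ¬ ∃ i, ∀ p, c (y.1 p) = i}
  have hcl : ∀ y : J, IsClosed (t y) := by
    intro y
    have : IsClopen {c : E n → Fin m | ∃ i, ∀ p, c (y.1 p) = i} := by
      have e : {c : E n → Fin m | ∃ i, ∀ p, c (y.1 p) = i} =
          (fun c : E n → Fin m => fun p : I => c (y.1 p)) ⁻¹' {d | ∃ i, ∀ p, d p = i} := rfl
      rw [e]
      exact (isClopen_discrete _).preimage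
        (continuous_pi fun p => continuous_apply (y.1 p))
    exact this.compl.1
  have hfin : ∀ u : Finset J, (Set.univ ∩ ⋂ i ∈ u, t i).Nonempty := by
    intro u
    let F : Finset (E n) := u.biUnion fun y => Finset.univ.image y.1
    obtain ⟨c, hc⟩ := hnot n F (by
      intro x hx z hz
      rw [Finset.mem_biUnion] at hx hz
      obtain ⟨y, -, hy⟩ := hx
      obtain ⟨y', -, hy'⟩ := hz
      obtain ⟨p, -, rfl⟩ := Finset.mem_image.1 hy
      obtain ⟨q, -, rfl⟩ := Finset.mem_image.1 hy'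
      exact hR _ (y.2.1 p) _ (y'.2.1 q))
    refine ⟨c, Set.mem_univ _, ?_⟩
    simp only [Set.mem_iInter]
    intro y hy
    exact hc y.1 (fun p => Finset.mem_biUnion.2
      ⟨y, hy, Finset.mem_image_of_mem _ (Finset.mem_univ p)⟩) y.2.2
  obtain ⟨c, -, hc⟩ := isCompact_univ.inter_iInter_nonempty t hcl hfin
  rw [Set.mem_iInter] at hc
  exact ⟨c, fun y h1 h2 => hc ⟨y, h1, h2⟩⟩

theorem sqrt32_sq : Real.sqrt 32 ^ 2 = 32 := Real.sq_sqrt (by norm_num)

theorem ediam_PP : Metric.ediam (PP : Set (E 16)) = ENNReal.ofReal (Real.sqrt 32) := by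
  apply le_antisymm
  · refine Metric.ediam_le fun x hx y hy => ?_
    obtain ⟨p, rfl⟩ := mem_PP.1 (Finset.mem_coe.1 hx)
    obtain ⟨q, rfl⟩ := mem_PP.1 (Finset.mem_coe.1 hy)
    rw [edist_dist]
    exact ENNReal.ofReal_le_ofReal (dist_pt_le p q)
  · rw [← dist_pt_far, ← edist_dist]
    exact Metric.edist_le_ediam_of_mem (Finset.mem_coe.2 (mem_PP.2 ⟨_, rfl⟩))
      (Finset.mem_coe.2 (mem_PP.2 ⟨_, rfl⟩))

theorem not_arrow : ∃ r₀ : ℕ, 2 ≤ r₀ ∧ ∀ r : ℕ, r₀ ≤ r → ∀ (n : ℕ) (R : Set (E n)),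
    Metric.ediam R ≤ Metric.ediam (PP : Set (E 16)) → ¬ Arrow R (PP : Set (E 16)) r := by
  obtain ⟨m, hm, hnot⟩ := not_dr_inf
  refine ⟨max m 2, le_max_right _ _, fun r hr n R hR hA => ?_⟩
  have hmr : m ≤ r := (le_max_left _ _).trans hr
  obtain ⟨c, hc⟩ := hnot n R (fun x hx y hy => by
    have h1 : edist x y ≤ ENNReal.ofReal (Real.sqrt 32) :=
      (Metric.edist_le_ediam_of_mem hx hy).trans (hR.trans ediam_PP.le)
    rw [edist_dist, ENNReal.ofReal_le_ofReal_iff (Real.sqrt_nonneg _)] at h1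
    calc dist x y ^ 2 ≤ Real.sqrt 32 ^ 2 := pow_le_pow_left₀ dist_nonneg h1 2
      _ = 32 := sqrt32_sq)
  obtain ⟨Q, ⟨φ⟩, i, hi⟩ := hA fun x => Fin.castLE hmr (c x)
  have hmem : ∀ p : I, pt p ∈ (PP : Set (E 16)) := fun p => Finset.mem_coe.2 (mem_PP.2 ⟨p, rfl⟩)
  refine hc (fun p => ((φ ⟨pt p, hmem p⟩ : R) : E n)) (fun p => (φ ⟨pt p, hmem p⟩ : R).2)
    (fun p q => ?_) ⟨c ((φ ⟨pt (.inl 0), hmem _⟩ : R) : E n), fun p => ?_⟩
  · have h1 := φ.isometry.dist_eq ⟨pt p, hmem p⟩ ⟨pt q, hmem q⟩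
    rw [← dist_pt]
    exact congrArg (· ^ 2) h1
  · have h1 := hi _ (φ ⟨pt p, hmem p⟩).2
    have h2 := hi _ (φ ⟨pt (.inl 0), hmem _⟩).2
    exact Fin.castLE_injective hmr (h1.trans h2.symm)

theorem copy_range {n : ℕ} {R : Set (E n)} {y : I → E n} (hy : ∀ p, y p ∈ R) (hc : IsCopy y) :
    Nonempty ((PP : Set (E 16)) ≃ᵢ Set.range fun p => (⟨y p, hy p⟩ : R)) := by
  rw [PP_eq]
  exact isoRange pt _ (dist_of_copy hc)

theorem ramsey_PP : Ramsey (PP : Set (E 16)) := by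
  intro r hr
  obtain ⟨n, R, hR, -⟩ := almost_dr r 1 one_pos
  refine ⟨n, fun c => ?_⟩
  obtain ⟨y, -, hc, i, hi⟩ := hR c
  refine ⟨Set.range y, ?_, i, ?_⟩
  · rw [PP_eq]
    exact isoRange pt y (dist_of_copy hc)
  · rintro _ ⟨p, rfl⟩
    exact hi p

theorem minDiam_PP (r : ℕ) (hr : 1 ≤ r) :
    minDiam (PP : Set (E 16)) r = Metric.ediam (PP : Set (E 16)) := by
  classical
  apply le_antisymm
  · refine ENNReal.le_of_forall_pos_le_add fun ε hε _ => ?_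
    obtain ⟨n, R, hR, hd⟩ := almost_dr r ((ε : ℝ) ^ 2) (by positivity)
    have hA : Arrow (R : Set (E n)) (PP : Set (E 16)) r := by
      intro c
      obtain ⟨y, hy, hc, i, hi⟩ := hR fun x => if h : x ∈ (R : Set (E n)) then c ⟨x, h⟩ else ⟨0, hr⟩
      refine ⟨_, copy_range (R := (R : Set (E n))) hy hc, i, ?_⟩
      rintro _ ⟨p, rfl⟩
      have h1 := hi p
      rwa [dif_pos (Finset.mem_coe.2 (hy p))] at h1
    refine (iInf_le_of_le n (iInf_le_of_le (R : Set (E n)) (iInf_le _ hA))).trans ?_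
    rw [ediam_PP, ← ENNReal.ofReal_coe_nnreal, ← ENNReal.ofReal_add (Real.sqrt_nonneg _) (NNReal.coe_nonneg ε)]
    refine Metric.ediam_le fun x hx z hz => ?_
    rw [edist_dist]
    apply ENNReal.ofReal_le_ofReal
    have h1 := hd x (Finset.mem_coe.1 hx) z (Finset.mem_coe.1 hz)
    have h2 : dist x z ^ 2 ≤ (Real.sqrt 32 + ε) ^ 2 := by
      have h4 : 0 ≤ Real.sqrt 32 * ε := by positivity
      nlinarith [sqrt32_sq]
    exact le_of_sq_le_sq h2 (by positivity)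
  · refine le_iInf fun n => le_iInf fun R => le_iInf fun hA => ?_
    obtain ⟨Q, ⟨φ⟩, -⟩ := hA fun _ => ⟨0, hr⟩
    refine Metric.ediam_le fun x hx z hz => ?_
    have h1 := φ.isometry.edist_eq ⟨x, hx⟩ ⟨z, hz⟩
    have h2 : edist x z = edist (φ ⟨x, hx⟩) (φ ⟨z, hz⟩) := h1.symm
    rw [h2]
    exact Metric.edist_le_ediam_of_mem (φ ⟨x, hx⟩ : R).2 (φ ⟨z, hz⟩ : R).2

theorem main : ∃ P : Finset (E 16), P.card = 33 ∧ AlmostDiameterRamsey (P : Set (E 16)) ∧
    ¬ DiameterRamsey (P : Set (E 16)) ∧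
    ∃ r₀ : ℕ, ∀ r : ℕ, r₀ ≤ r → ∀ (n : ℕ) (R : Set (E n)),
      Metric.ediam R ≤ Metric.ediam (P : Set (E 16)) → ¬ Arrow R (P : Set (E 16)) r := by
  obtain ⟨r₀, h2, h⟩ := not_arrow
  refine ⟨PP, card_PP, ⟨ramsey_PP, minDiam_PP⟩, fun hD => ?_, r₀, h⟩
  obtain ⟨n, R, -, hR, hA⟩ := hD r₀ h2
  exact h r₀ le_rfl n R hR.le hA

end Pool.Agent.Helper1.DROwn
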